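import Mathlib
import Pool.Agent.Helper33.WBVCore

/-!
# Homeomorphisms in `W^{2,q}` do not have a.e. vanishing Jacobian (answer to Q1 of MP_941809_an)

We work on `ℝⁿ = EuclideanSpace ℝ (Fin n)` with Lebesgue measure `volume`.
-/

set_option autoImplicit false

open MeasureTheory Set
open scoped ContDiff ENNReal

namespace Pool.Agent.Results.MP_941809_an.HomeoW2q

/-- `IsTest Ω φ`: `φ` is a test function on `Ω`, i.e. a real `C^∞` function on `ℝⁿ` whose support
is a compact subset of `Ω`. -/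
def IsTest {n : ℕ} (Ω : Set (EuclideanSpace ℝ (Fin n))) (φ : EuclideanSpace ℝ (Fin n) → ℝ) :
    Prop :=
  ContDiff ℝ ∞ φ ∧ HasCompactSupport φ ∧ tsupport φ ⊆ Ω

/-- The classical `j`-th first order derivative `∂φ/∂x_j` of a test function. -/
noncomputable def pd {n : ℕ} (j : Fin n) (φ : EuclideanSpace ℝ (Fin n) → ℝ)
    (x : EuclideanSpace ℝ (Fin n)) : ℝ :=
  fderiv ℝ φ x (EuclideanSpace.single j (1 : ℝ))

/-- `v` is the weak `j`-th derivative of `u` on `Ω`:
`∫_Ω u ∂_j φ = - ∫_Ω v φ` for all test functions `φ` on `Ω`. -/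
def IsWeakDeriv {n : ℕ} (Ω : Set (EuclideanSpace ℝ (Fin n))) (j : Fin n)
    (u v : EuclideanSpace ℝ (Fin n) → ℝ) : Prop :=
  ∀ φ, IsTest Ω φ → ∫ x in Ω, u x * pd j φ x = - ∫ x in Ω, v x * φ x

/-- `f ∈ W^{2,q}(Ω, ℝⁿ)` with weak differential `D` (`D x i j` is the `j`-th weak derivative of
the `i`-th component of `f`): the components of `f`, the entries of `D` and the weak first order
derivatives `h` of the entries of `D` (the weak second order derivatives of `f`) exist and lie in
`L^q(Ω)`. -/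
structure IsW2 {n : ℕ} (q : ℝ≥0∞) (Ω : Set (EuclideanSpace ℝ (Fin n)))
    (f : EuclideanSpace ℝ (Fin n) → EuclideanSpace ℝ (Fin n))
    (D : EuclideanSpace ℝ (Fin n) → Matrix (Fin n) (Fin n) ℝ) : Prop where
  memLp_map : ∀ i, MemLp (fun x => f x i) q (volume.restrict Ω)
  memLp_deriv : ∀ i j, MemLp (fun x => D x i j) q (volume.restrict Ω)
  weak_deriv : ∀ i j, IsWeakDeriv Ω j (fun x => f x i) (fun x => D x i j)
  second_deriv : ∀ i j k, ∃ h : EuclideanSpace ℝ (Fin n) → ℝ,
    MemLp h q (volume.restrict Ω) ∧ IsWeakDeriv Ω k (fun x => D x i j) h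

/-- **Answer to Q1 (in every dimension and for every `1 ≤ q ≤ ∞`).** Let `Ω ⊆ ℝⁿ` be open and
nonempty, and let `f : Ω → ℝⁿ` be continuous and injective (in particular, a homeomorphism onto
its image). If `f ∈ W^{2,q}(Ω, ℝⁿ)`, with weak differential `D`, then the Jacobian `det D` is
nonzero on a subset of `Ω` of positive Lebesgue measure. -/
theorem result (n : ℕ) (q : ℝ≥0∞) (hq : 1 ≤ q)
    (Ω : Set (EuclideanSpace ℝ (Fin n))) (hΩ : IsOpen Ω) (hne : Ω.Nonempty)
    (f : EuclideanSpace ℝ (Fin n) → EuclideanSpace ℝ (Fin n))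
    (D : EuclideanSpace ℝ (Fin n) → Matrix (Fin n) (Fin n) ℝ)
    (hf : IsW2 q Ω f D) (hcont : ContinuousOn f Ω) (hinj : InjOn f Ω) :
    0 < volume {x | x ∈ Ω ∧ (D x).det ≠ 0} := by
  by_contra h0
  have h0' : volume {x | x ∈ Ω ∧ (D x).det ≠ 0} = 0 := by simpa using h0
  choose h hh hhD using hf.second_deriv
  have hloc : ∀ u : EuclideanSpace ℝ (Fin n) → ℝ, MemLp u q (volume.restrict Ω) →
      LocallyIntegrable u (volume.restrict Ω) := fun u hu => hu.locallyIntegrable hq
  -- the dominating measure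
  let τ : Fin n → Fin n → Fin n → Measure (EuclideanSpace ℝ (Fin n)) := fun i j k =>
    (volume.restrict Ω).withDensity fun x => ‖h i j k x‖ₑ
  let μ : Measure (EuclideanSpace ℝ (Fin n)) := ∑ i, ∑ j, ∑ k, τ i j k
  have hτK : ∀ i j k, ∀ K : Set (EuclideanSpace ℝ (Fin n)), IsCompact K → τ i j k K < ⊤ := by
    intro i j k K hK
    simp only [τ]
    rw [withDensity_apply _ hK.measurableSet]
    exact ((hloc _ (hh i j k)).integrableOn_isCompact hK).2
  have hμK : ∀ K : Set (EuclideanSpace ℝ (Fin n)), IsCompact K → μ K < ⊤ := by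
    intro K hK
    simp only [μ, Measure.finsetSum_apply]
    exact ENNReal.sum_lt_top.2 fun i _ => ENNReal.sum_lt_top.2 fun j _ =>
      ENNReal.sum_lt_top.2 fun k _ => hτK i j k K hK
  have hμfin : IsFiniteMeasureOnCompacts μ := ⟨fun K hK => hμK K hK⟩
  refine Pool.Agent.Helper33.WBV.core (f := fun x i => f x i) (D := fun x i j => D x i j)
    (μ := μ) hΩ hne ?_ ?_ ?_ ?_ ?_ ?_ ?_
  · exact continuousOn_pi.2 fun i => (EuclideanSpace.proj (𝕜 := ℝ) i).continuous.comp_continuousOn
      hcont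
  · intro x hx y hy hxy
    apply hinj hx hy
    ext i
    exact congrFun hxy i
  · intro i j
    exact locallyIntegrableOn_of_locallyIntegrable_restrict (hloc _ (hf.memLp_deriv i j))
  · intro K _ hK
    exact hμK K hK
  · intro i j ψ hψ hψc hψΩ
    have h := hf.weak_deriv i j ψ ⟨hψ, hψc, hψΩ⟩
    have h1 : ∫ x in Ω, f x i * pd j ψ x = ∫ x, f x i * pd j ψ x := by
      apply setIntegral_eq_integral_of_forall_compl_eq_zero
      intro x hx
      have h2 : x ∉ tsupport ψ := fun h => hx (hψΩ h)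
      simp [pd, fderiv_of_notMem_tsupport ℝ h2]
    have h3 : ∫ x in Ω, D x i j * ψ x = ∫ x, D x i j * ψ x := by
      apply setIntegral_eq_integral_of_forall_compl_eq_zero
      intro x hx
      have h2 : x ∉ tsupport ψ := fun h => hx (hψΩ h)
      simp [image_eq_zero_of_notMem_tsupport h2]
    rw [h1, h3] at h
    exact h
  · intro i j k ψ hψ hψc hψΩ
    have h4 := hhD i j k ψ ⟨hψ, hψc, hψΩ⟩
    have h1 : ∫ x in Ω, D x i j * pd k ψ x = ∫ x, D x i j * pd k ψ x := by
      apply setIntegral_eq_integral_of_forall_compl_eq_zero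
      intro x hx
      have h2 : x ∉ tsupport ψ := fun h => hx (hψΩ h)
      simp [pd, fderiv_of_notMem_tsupport ℝ h2]
    rw [h1] at h4
    change |∫ x, D x i j * pd k ψ x| ≤ _
    rw [h4, abs_neg]
    have hle : τ i j k ≤ μ := by
      calc τ i j k ≤ ∑ k, τ i j k :=
            Finset.single_le_sum (f := fun k => τ i j k) (fun _ _ => Measure.zero_le _)
              (Finset.mem_univ k)
        _ ≤ ∑ j, ∑ k, τ i j k :=
            Finset.single_le_sum (f := fun j => ∑ k, τ i j k)
              (fun _ _ => Measure.zero_le _) (Finset.mem_univ j)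
        _ ≤ ∑ i, ∑ j, ∑ k, τ i j k :=
            Finset.single_le_sum (f := fun i => ∑ j, ∑ k, τ i j k)
              (fun _ _ => Measure.zero_le _) (Finset.mem_univ i)
    have hint : Integrable (fun x => |ψ x|) μ :=
      (hψ.continuous.abs).integrable_of_hasCompactSupport (hψc.comp_left abs_zero)
    have hmeas : AEMeasurable (fun x => ‖h i j k x‖ₑ) (volume.restrict Ω) :=
      (hh i j k).1.enorm
    calc |∫ x in Ω, h i j k x * ψ x| ≤ ∫ x in Ω, |h i j k x * ψ x| := abs_integral_le_integral_abs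
      _ = ∫ x, |ψ x| ∂(τ i j k) := by
          simp only [τ]
          rw [integral_withDensity_eq_integral_toReal_smul₀ hmeas
            (Filter.Eventually.of_forall fun x => enorm_lt_top)]
          refine integral_congr_ae (Filter.Eventually.of_forall fun x => ?_)
          simp [abs_mul]
      _ ≤ ∫ x, |ψ x| ∂μ :=
          integral_mono_measure hle (Filter.Eventually.of_forall fun x => abs_nonneg _) hint
  · rw [ae_restrict_iff' hΩ.measurableSet, ae_iff]
    convert h0' using 2
    ext x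
    simp only [Classical.not_imp, Set.mem_ofPred_eq]
    rfl

end Pool.Agent.Results.MP_941809_an.HomeoW2q
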