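import Mathlib
import Pool.Agent.Helper33.WBVCore

/-!
# Homeomorphisms in `WBV` do not have a.e. vanishing Jacobian (answer to Q2 of MP_941809_an)

We work on `ℝⁿ = EuclideanSpace ℝ (Fin n)` with Lebesgue measure `volume`.
-/

set_option autoImplicit false

open MeasureTheory Set
open scoped ContDiff

namespace Pool.Agent.Results.MP_941809_an.HomeoWBV

/-- `IsTest Ω φ`: `φ` is a test function on `Ω`, i.e. a real `C^∞` function on `ℝⁿ` whose support
is a compact subset of `Ω`. -/
def IsTest {n : ℕ} (Ω : Set (EuclideanSpace ℝ (Fin n))) (φ : EuclideanSpace ℝ (Fin n) → ℝ) :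
    Prop :=
  ContDiff ℝ ∞ φ ∧ HasCompactSupport φ ∧ tsupport φ ⊆ Ω

/-- The classical `j`-th first order derivative `∂φ/∂x_j` of a test function. -/
noncomputable def pd {n : ℕ} (j : Fin n) (φ : EuclideanSpace ℝ (Fin n) → ℝ)
    (x : EuclideanSpace ℝ (Fin n)) : ℝ :=
  fderiv ℝ φ x (EuclideanSpace.single j (1 : ℝ))

/-- `v` is the weak `j`-th derivative of `u` on `Ω`:
`∫_Ω u ∂_j φ = - ∫_Ω v φ` for all test functions `φ` on `Ω`. -/
def IsWeakDeriv {n : ℕ} (Ω : Set (EuclideanSpace ℝ (Fin n))) (j : Fin n)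
    (u v : EuclideanSpace ℝ (Fin n) → ℝ) : Prop :=
  ∀ φ, IsTest Ω φ → ∫ x in Ω, u x * pd j φ x = - ∫ x in Ω, v x * φ x

/-- The distributional `k`-th derivative of `v` on `Ω` is the finite signed Radon measure `α - β`
(difference of two finite positive Borel measures):
`∫_Ω v ∂_k φ = - (∫_Ω φ dα - ∫_Ω φ dβ)` for all test functions `φ` on `Ω`. -/
def HasMeasureDeriv {n : ℕ} (Ω : Set (EuclideanSpace ℝ (Fin n))) (k : Fin n)
    (v : EuclideanSpace ℝ (Fin n) → ℝ) : Prop :=
  ∃ α β : Measure (EuclideanSpace ℝ (Fin n)), IsFiniteMeasure α ∧ IsFiniteMeasure β ∧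
    ∀ φ, IsTest Ω φ → ∫ x in Ω, v x * pd k φ x = - (∫ x in Ω, φ x ∂α - ∫ x in Ω, φ x ∂β)

/-- `f ∈ WBV(Ω, ℝⁿ)` with weak differential `D` (`D x i j` is the `j`-th weak derivative of the
`i`-th component of `f`): `f` and `D` are integrable on `Ω`, `D` is the weak differential of `f`
(so `f ∈ W^{1,1}(Ω, ℝⁿ)`), and all distributional derivatives of the entries of `D` are finite
signed Radon measures on `Ω`. -/
structure IsWBV {n : ℕ} (Ω : Set (EuclideanSpace ℝ (Fin n)))
    (f : EuclideanSpace ℝ (Fin n) → EuclideanSpace ℝ (Fin n))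
    (D : EuclideanSpace ℝ (Fin n) → Matrix (Fin n) (Fin n) ℝ) : Prop where
  integrable_map : ∀ i, IntegrableOn (fun x => f x i) Ω volume
  integrable_deriv : ∀ i j, IntegrableOn (fun x => D x i j) Ω volume
  weak_deriv : ∀ i j, IsWeakDeriv Ω j (fun x => f x i) (fun x => D x i j)
  second_deriv : ∀ i j k, HasMeasureDeriv Ω k (fun x => D x i j)

/-- **Answer to Q2 (in every dimension).** Let `Ω ⊆ ℝⁿ` be open and nonempty, and let
`f : Ω → ℝⁿ` be continuous and injective (in particular, a homeomorphism onto its image). If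
`f ∈ WBV(Ω, ℝⁿ)`, with weak differential `D`, then the Jacobian `det D` is nonzero on a subset of
`Ω` of positive Lebesgue measure. -/
theorem result (n : ℕ) (Ω : Set (EuclideanSpace ℝ (Fin n))) (hΩ : IsOpen Ω) (hne : Ω.Nonempty)
    (f : EuclideanSpace ℝ (Fin n) → EuclideanSpace ℝ (Fin n))
    (D : EuclideanSpace ℝ (Fin n) → Matrix (Fin n) (Fin n) ℝ)
    (hf : IsWBV Ω f D) (hcont : ContinuousOn f Ω) (hinj : InjOn f Ω) :
    0 < volume {x | x ∈ Ω ∧ (D x).det ≠ 0} := by
  by_contra h0
  have h0' : volume {x | x ∈ Ω ∧ (D x).det ≠ 0} = 0 := by simpa using h0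
  choose α β hα hβ hαβ using hf.second_deriv
  -- the dominating measure
  let μ : Measure (EuclideanSpace ℝ (Fin n)) :=
    (∑ i, ∑ j, ∑ k, (α i j k + β i j k)).restrict Ω
  have hμfin : IsFiniteMeasure μ := by
    refine ⟨?_⟩
    simp only [μ, Measure.restrict_apply_univ]
    simp only [Measure.finsetSum_apply, Measure.add_apply]
    refine ENNReal.sum_lt_top.2 fun i _ => ENNReal.sum_lt_top.2 fun j _ =>
      ENNReal.sum_lt_top.2 fun k _ => ?_
    exact ENNReal.add_lt_top.2 ⟨measure_lt_top _ _, measure_lt_top _ _⟩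
  refine Pool.Agent.Helper33.WBV.core (f := fun x i => f x i) (D := fun x i j => D x i j)
    (μ := μ) hΩ hne ?_ ?_ ?_ ?_ ?_ ?_ ?_
  · exact continuousOn_pi.2 fun i => (EuclideanSpace.proj (𝕜 := ℝ) i).continuous.comp_continuousOn
      hcont
  · intro x hx y hy hxy
    apply hinj hx hy
    ext i
    exact congrFun hxy i
  · intro i j
    exact (hf.integrable_deriv i j).locallyIntegrableOn
  · intro K _ _
    exact measure_lt_top _ _
  · intro i j ψ hψ hψc hψΩ
    have h := hf.weak_deriv i j ψ ⟨hψ, hψc, hψΩ⟩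
    have h1 : ∫ x in Ω, f x i * pd j ψ x = ∫ x, f x i * pd j ψ x := by
      apply setIntegral_eq_integral_of_forall_compl_eq_zero
      intro x hx
      have h2 : x ∉ tsupport ψ := fun h => hx (hψΩ h)
      simp [pd, fderiv_of_notMem_tsupport ℝ h2]
    have h3 : ∫ x in Ω, D x i j * ψ x = ∫ x, D x i j * ψ x := by
      apply setIntegral_eq_integral_of_forall_compl_eq_zero
      intro x hx
      have h2 : x ∉ tsupport ψ := fun h => hx (hψΩ h)
      simp [image_eq_zero_of_notMem_tsupport h2]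
    rw [h1, h3] at h
    exact h
  · intro i j k ψ hψ hψc hψΩ
    have h := hαβ i j k ψ ⟨hψ, hψc, hψΩ⟩
    have h1 : ∫ x in Ω, D x i j * pd k ψ x = ∫ x, D x i j * pd k ψ x := by
      apply setIntegral_eq_integral_of_forall_compl_eq_zero
      intro x hx
      have h2 : x ∉ tsupport ψ := fun h => hx (hψΩ h)
      simp [pd, fderiv_of_notMem_tsupport ℝ h2]
    rw [h1] at h
    change |∫ x, D x i j * pd k ψ x| ≤ _
    rw [h, abs_neg]
    have hle : (α i j k + β i j k).restrict Ω ≤ μ := by
      apply Measure.restrict_mono_measure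
      calc α i j k + β i j k ≤ ∑ k, (α i j k + β i j k) :=
            Finset.single_le_sum (f := fun k => α i j k + β i j k) (fun _ _ => Measure.zero_le _)
              (Finset.mem_univ k)
        _ ≤ ∑ j, ∑ k, (α i j k + β i j k) :=
            Finset.single_le_sum (f := fun j => ∑ k, (α i j k + β i j k))
              (fun _ _ => Measure.zero_le _) (Finset.mem_univ j)
        _ ≤ ∑ i, ∑ j, ∑ k, (α i j k + β i j k) :=
            Finset.single_le_sum (f := fun i => ∑ j, ∑ k, (α i j k + β i j k))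
              (fun _ _ => Measure.zero_le _) (Finset.mem_univ i)
    have hint : ∀ (ν : Measure (EuclideanSpace ℝ (Fin n))) [IsFiniteMeasure ν],
        Integrable (fun x => |ψ x|) ν := fun ν _ =>
      (hψ.continuous.abs).integrable_of_hasCompactSupport (hψc.comp_left abs_zero)
    have hfinα := hα i j k
    have hfinβ := hβ i j k
    calc |∫ x in Ω, ψ x ∂(α i j k) - ∫ x in Ω, ψ x ∂(β i j k)|
        ≤ |∫ x in Ω, ψ x ∂(α i j k)| + |∫ x in Ω, ψ x ∂(β i j k)| := abs_sub _ _
      _ ≤ ∫ x in Ω, |ψ x| ∂(α i j k) + ∫ x in Ω, |ψ x| ∂(β i j k) :=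
          add_le_add abs_integral_le_integral_abs abs_integral_le_integral_abs
      _ = ∫ x, |ψ x| ∂((α i j k + β i j k).restrict Ω) := by
          rw [Measure.restrict_add, integral_add_measure (hint _) (hint _)]
      _ ≤ ∫ x, |ψ x| ∂μ :=
          integral_mono_measure hle (Filter.Eventually.of_forall fun x => abs_nonneg _) (hint _)
  · rw [ae_restrict_iff' hΩ.measurableSet, ae_iff]
    convert h0' using 2
    ext x
    simp only [Classical.not_imp, Set.mem_ofPred_eq]
    rfl

end Pool.Agent.Results.MP_941809_an.HomeoWBV
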